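import Pool.Agent.Lib.MP_55cb2c_co.Defs
import Pool.Agent.Lib.MP_69e6d0_co.Thm2

open Pool.Agent.Lib.MP_55cb2c_co Pool.Agent.Lib.MP_69e6d0_co

/-- Some compact connected planar set has a larger rendezvous constant than the Reuleaux
triangle, whether the latter is read as the solid region or as its boundary curve. -/
theorem Pool.Agent.Results.MP_69e6d0_co.Disproof.result
    (s : ℝ) (hs : 0 < s) (A B C : EuclideanSpace ℝ (Fin 2)) (hAB : dist A B = s)
    (hBC : dist B C = s) (hAC : dist A C = s) (T : Set (EuclideanSpace ℝ (Fin 2)))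
    (hT : T = Metric.closedBall A s ∩ Metric.closedBall B s ∩ Metric.closedBall C s) :
    ∃ E : Set (EuclideanSpace ℝ (Fin 2)), IsCompact E ∧ IsConnected E ∧ E.Nontrivial ∧
      rdv T / Metric.diam T < rdv E / Metric.diam E ∧
      rdv (frontier T) / Metric.diam (frontier T) < rdv E / Metric.diam E := by
  obtain ⟨f, hf, hTT⟩ := exists_sim hs hAB hBC hAC
  obtain ⟨u, v, hu, huv, hv, hlt⟩ := exists_cut
  have hn : (Set.univ : Set ℂ).Nontrivial := ⟨0, trivial, 1, trivial, zero_ne_one⟩
  have hd : Metric.diam (cut u v) = 1 :=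
    diam_eq_one (cut_subset (by linarith) (by linarith)) v0_mem_cut (v1_mem_cut hu.le)
  have hd' : Metric.diam Gam = 1 := diam_eq_one le_rfl v0_mem v1_mem
  have hd'' : 1 ≤ Metric.diam TT := by
    rw [← dist_v01]
    exact Metric.dist_le_diam_of_mem isCompact_TT.isBounded (Gam_subset_TT v0_mem)
      (Gam_subset_TT v1_mem)
  have h01 : (0 : ℂ) ≠ yy 0 := by
    rw [← dist_ne_zero, dist_v01]; exact one_ne_zero
  have key : ∀ E : Set ℂ, rdv (f '' E) / Metric.diam (f '' E) = rdv E / Metric.diam E := by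
    intro E
    rw [rdv_image hs.le hf, diam_image_sim hs hf hn, mul_div_mul_left _ _ hs.ne']
  rw [← hTT] at hT
  refine ⟨f '' cut u v, isCompact_cut.image f.continuous,
    (isConnected_cut hu.le hv.le).image _ f.continuous.continuousOn,
    Set.Nontrivial.image ⟨0, v0_mem_cut, yy 0, v1_mem_cut hu.le, h01⟩ f.injective, ?_, ?_⟩
  · rw [hT, key, key, hd, div_one, div_lt_iff₀ (by linarith)]
    nlinarith [rdv_TT_lt, le_rdv_Gam]
  · rw [hT, ← f.image_frontier, frontier_TT, key, key, hd, hd', div_one, div_one]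
    exact hlt
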